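import Pool.Agent.W714.HE.Main
import Pool.Agent.W714.ES.Pt

/-!
# Einstein curvature tensors with a one-sided curvature bound in dimension six
-/

set_option autoImplicit false

open scoped BigOperators

namespace Pool.Agent.W714.ES

open Hopf6 Pool.Agent.W714.HE

theorem ein_core1 {k : ℝ} (hk : 5 / 4 ≤ k) {R : Ten} (hR : IsCurv R)
    (hE : ∀ a b, Rc R a b = if a = b then 5 else 0)
    (h : ∀ z : Fin 6 → ℝ, ∑ a, z a ^ 2 = 1 → ∀ y, quad R z y ≤ k * area2 z y) :
    128 / 3 * pol k ≤ gb R := by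
  obtain ⟨ι, _, ⟨D⟩⟩ := exists_design
  have h1 : 0 ≤ D.av (fun x => ff R x + -(pol k)) :=
    D.av_nonneg fun i => by
      have := ff_ge1 hk hR hE (D.unit i) h
      linarith
  have h2 : D.av (fun x => ff R x + -(pol k)) = D.av (ff R) + -(pol k) := by
    rw [Design.av_add, Design.av_one]
  rw [h2, av_ff D hR hE] at h1
  linarith

section
variable {V : Type*} [NormedAddCommGroup V] [InnerProductSpace ℝ V]

/-- all sectional curvatures are at most `b` -/
def SecLE (R : V → V → V → V → ℝ) (b : ℝ) : Prop :=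
  ∀ x y : V, ‖x‖ = 1 → ‖y‖ = 1 → inner ℝ x y = 0 → R x y x y ≤ b

/-- all sectional curvatures are at least `b` -/
def SecGE (R : V → V → V → V → ℝ) (b : ℝ) : Prop :=
  ∀ x y : V, ‖x‖ = 1 → ‖y‖ = 1 → inner ℝ x y = 0 → b ≤ R x y x y

variable (e : OrthonormalBasis (Fin 6) ℝ V) {R : V → V → V → V → ℝ}

/-- the sectional curvature bound for a unit vector and an arbitrary vector -/
theorem sec_bound1 (hR : AlgCurv R) {b : ℝ} (h : SecLE R b) (x y : V) (hx : ‖x‖ = 1) :
    R x y x y ≤ b * (‖y‖ ^ 2 - inner ℝ x y ^ 2) := by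
  set t : ℝ := inner ℝ x y with ht
  set z : V := y - t • x with hz
  have hxx : inner ℝ x x = (1 : ℝ) := by rw [real_inner_self_eq_norm_sq, hx]; norm_num
  have hxz : inner ℝ x z = 0 := by
    rw [hz, inner_sub_right, inner_smul_right, hxx, ← ht]
    ring
  have hnz : ‖z‖ ^ 2 = ‖y‖ ^ 2 - t ^ 2 := by
    rw [hz, norm_sub_sq_real, inner_smul_right, real_inner_comm, ← ht, norm_smul, hx]
    rw [mul_one, Real.norm_eq_abs, sq_abs]
    ring
  have hy : y = z + t • x := by rw [hz]; abel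
  have a2 : ∀ u v v' u' w, R u (v + v') u' w = R u v u' w + R u v' u' w := by
    intro u v v' u' w
    rw [hR.anti (v + v') u u' w, hR.add, hR.anti v u u' w, hR.anti v' u u' w]
    ring
  have m2 : ∀ (t : ℝ) u v u' w, R u (t • v) u' w = t * R u v u' w := by
    intro t u v u' w
    rw [hR.anti (t • v) u u' w, hR.smul, hR.anti v u u' w]
    ring
  have a4 : ∀ u v u' w w', R u v u' (w + w') = R u v u' w + R u v u' w' := by
    intro u v u' w w'
    rw [hR.pair u' (w + w') u v, a2, hR.pair u' w u v, hR.pair u' w' u v]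
  have m4 : ∀ (t : ℝ) u v u' w, R u v u' (t • w) = t * R u v u' w := by
    intro t u v u' w
    rw [hR.pair u' (t • w) u v, m2, hR.pair u' w u v]
  have hRz : R x y x y = R x z x z := by
    rw [hy]
    simp only [a2, m2, a4, m4, R_xx hR, R_xx' hR]
    ring
  rw [hRz, ← hnz]
  rcases eq_or_ne z 0 with h0 | h0
  · rw [h0]
    have h00 : R x 0 x 0 = 0 := by
      have := m4 0 x 0 x 0
      rw [zero_smul, zero_mul] at this
      exact this
    rw [h00]
    simp
  · have hn : ‖z‖ ≠ 0 := norm_ne_zero_iff.2 h0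
    have h1 := h x (‖z‖⁻¹ • z) hx (by rw [norm_smul, norm_inv, norm_norm, inv_mul_cancel₀ hn])
      (by rw [inner_smul_right, hxz, mul_zero])
    simp only [m2, m4] at h1
    have hp : 0 < ‖z‖ ^ 2 := by positivity
    have e1 : ‖z‖⁻¹ * (‖z‖⁻¹ * R x z x z) * ‖z‖ ^ 2 = R x z x z := by
      field_simp
    rw [← e1]
    exact mul_le_mul_of_nonneg_right h1 hp.le

theorem comp_bound1 (hR : AlgCurv R) {c k : ℝ} (hc : 0 < c) (h : SecLE R (k * c))
    (x : Fin 6 → ℝ) (hx : ∑ a, x a ^ 2 = 1) (y : Fin 6 → ℝ) :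
    quad (scl c⁻¹ (tn e R)) x y ≤ k * area2 x y := by
  have hx1 : ‖vc e x‖ = 1 := by
    have := vc_norm e x
    rw [hx] at this
    nlinarith [norm_nonneg (vc e x)]
  have h1 := sec_bound1 hR h (vc e x) (vc e y) hx1
  have ha : ‖vc e y‖ ^ 2 - inner ℝ (vc e x) (vc e y) ^ 2 = area2 x y := by
    rw [vc_norm, vc_inner]
    unfold area2
    rw [hx, one_mul]
  rw [ha, ← quad_tn e hR] at h1
  rw [quad_scl]
  calc c⁻¹ * quad (tn e R) x y ≤ c⁻¹ * (k * c * area2 x y) :=
        mul_le_mul_of_nonneg_left h1 (inv_nonneg.2 hc.le)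
    _ = k * area2 x y := by field_simp

theorem ein_pos1 {k : ℝ} (hk : 5 / 4 ≤ k) (hR : AlgCurv R) {c : ℝ} (hc : 0 < c)
    (hE : Einstein e R c) (h : SecLE R (k * c)) : 128 / 3 * pol k * c ^ 3 ≤ gb (tn e R) := by
  have h1 := ein_core1 hk (scl_curv (tn_curv e hR) c⁻¹) (Rc_ein e hR hc hE)
    (fun x hx y => comp_bound1 e hR hc h x hx y)
  rw [gb_scl] at h1
  have hc3 : 0 < c ^ 3 := by positivity
  calc 128 / 3 * pol k * c ^ 3 ≤ (c⁻¹ ^ 3 * gb (tn e R)) * c ^ 3 :=
        mul_le_mul_of_nonneg_right h1 hc3.le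
    _ = gb (tn e R) := by field_simp

theorem ein_neg1 {k : ℝ} (hk : 5 / 4 ≤ k) (hR : AlgCurv R) {c : ℝ} (hc : 0 < c)
    (hE : Einstein e R (-c)) (h : SecGE R (-(k * c))) :
    gb (tn e R) ≤ -(128 / 3 * pol k * c ^ 3) := by
  have hE' : Einstein e (fun x y z w => - R x y z w) c := by
    intro v w
    have := hE v w
    rw [Finset.sum_neg_distrib, this]
    ring
  have hS : SecLE (fun x y z w => - R x y z w) (k * c) := by
    intro x y hx hy hxy
    have := h x y hx hy hxy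
    linarith
  have h1 := ein_pos1 e hk (neg_curv hR) hc hE' hS
  rw [gb_neg] at h1
  linarith

theorem const_eq (k c : ℝ) : 1 / ((8 * Real.pi) ^ 3 * 6) * (128 / 3 * pol k * c ^ 3) =
    pol k / 135 * roundGB c := by
  have hpi := Real.pi_pos
  unfold roundGB
  field_simp
  ring

/-- the sharp pointwise bound, positive case -/
theorem gbc_pos1 {k : ℝ} (hk : 5 / 4 ≤ k) (hR : AlgCurv R) {c : ℝ} (hc : 0 < c)
    (hE : Einstein e R c) (h : SecLE R (k * c)) : pol k / 135 * roundGB c ≤ gbc e R := by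
  have h1 := ein_pos1 e hk hR hc hE h
  have hpi := Real.pi_pos
  rw [gbc_eq, ← const_eq]
  exact mul_le_mul_of_nonneg_left h1 (by positivity)

/-- the sharp pointwise bound, negative case -/
theorem gbc_neg1 {k : ℝ} (hk : 5 / 4 ≤ k) (hR : AlgCurv R) {c : ℝ} (hc : 0 < c)
    (hE : Einstein e R (-c)) (h : SecGE R (-(k * c))) :
    gbc e R ≤ -(pol k / 135 * roundGB c) := by
  have h1 := ein_neg1 e hk hR hc hE h
  have hpi := Real.pi_pos
  rw [gbc_eq, ← const_eq, ← mul_neg]
  exact mul_le_mul_of_nonneg_left h1 (by positivity)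

end

end Pool.Agent.W714.ES
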