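import Pool.Agent.W714.ES.Main

/-!
# The extremal tensors

A combination of the curvature tensors of the round sphere and of complex projective space.
-/

set_option autoImplicit false

open scoped BigOperators

namespace Pool.Agent.W714.ES

open Hopf6 Pool.Agent.W714.HE

/-- six-dimensional Euclidean space -/
abbrev E6 : Type := EuclideanSpace ℝ (Fin 6)

/-- the standard symplectic form -/
noncomputable def w6 (x y : E6) : ℝ :=
  x 1 * y 0 - x 0 * y 1 + x 3 * y 2 - x 2 * y 3 + x 5 * y 4 - x 4 * y 5

/-- the extremal tensors -/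
noncomputable def Rex (p q : ℝ) (x y z t : E6) : ℝ :=
  p * (inner ℝ x z * inner ℝ y t - inner ℝ x t * inner ℝ y z)
    - q / 3 * (w6 x z * w6 y t - w6 x t * w6 y z + 2 * (w6 x y * w6 z t))

theorem Rex_curv (p q : ℝ) : AlgCurv (Rex p q) := by
  refine ⟨fun x x' y z w => ?_, fun t x y z w => ?_, fun x y z w => ?_, fun x y z w => ?_,
    fun x y z w => ?_⟩
  · simp only [Rex, w6, inner_add_left, PiLp.add_apply]
    ring
  · simp only [Rex, w6, real_inner_smul_left, PiLp.smul_apply, smul_eq_mul]
    ring
  · simp only [Rex, w6]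
    ring
  · simp only [Rex, w6]
    rw [real_inner_comm x z, real_inner_comm y w, real_inner_comm y z, real_inner_comm x w]
    ring
  · simp only [Rex, w6]
    rw [real_inner_comm x y, real_inner_comm x z, real_inner_comm y z]
    ring

theorem Rex_sec {p q : ℝ} (hq : 0 ≤ q) : SecLE (Rex p q) p := by
  intro x y hx hy hxy
  have h1 : inner ℝ x x = (1 : ℝ) := by rw [real_inner_self_eq_norm_sq, hx]; norm_num
  have h2 : inner ℝ y y = (1 : ℝ) := by rw [real_inner_self_eq_norm_sq, hy]; norm_num
  have h3 : Rex p q x y x y = p - q * (w6 x y) ^ 2 := by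
    simp only [Rex]
    rw [h1, h2, real_inner_comm x y, hxy]
    simp only [w6]
    ring
  rw [h3]
  nlinarith [sq_nonneg (w6 x y), mul_nonneg hq (sq_nonneg (w6 x y))]

/-- the standard basis -/
noncomputable abbrev be : OrthonormalBasis (Fin 6) ℝ E6 := EuclideanSpace.basisFun (Fin 6) ℝ

theorem be_apply (a i : Fin 6) : be a i = if a = i then 1 else 0 := by
  simp [be, EuclideanSpace.basisFun_apply, eq_comm]

theorem in_be (v : E6) (i : Fin 6) : inner ℝ (be i) v = v i := by
  simp [be, EuclideanSpace.basisFun_apply, PiLp.inner_apply]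

theorem Rex_ein (p q : ℝ) (v w : E6) :
    ∑ i, Rex p q (be i) v (be i) w = (5 * p - q) * inner ℝ v w := by
  have h1 : ∀ i, inner ℝ (be i) (be i) = (1 : ℝ) := fun i => by
    rw [in_be, be_apply, if_pos rfl]
  have h2 : ∀ i, inner ℝ v (be i) = v i := fun i => by rw [real_inner_comm, in_be]
  simp only [Rex, h1, h2, in_be]
  have h3 : inner ℝ v w = ∑ i, v i * w i := by
    simp [PiLp.inner_apply, mul_comm]
  rw [h3]
  simp only [w6, be_apply, Fin.sum_univ_six]
  simp
  ring

theorem vc_apply (x : Fin 6 → ℝ) (i : Fin 6) : vc be x i = x i := by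
  rw [← in_be]
  unfold vc
  rw [inner_sum, Finset.sum_eq_single i]
  · rw [real_inner_smul_right, in_be, be_apply, if_pos rfl, mul_one]
  · intro j _ hj
    rw [real_inner_smul_right, in_be, be_apply, if_neg hj, mul_zero]
  · simp

/-- the complex structure -/
def yv (x : Fin 6 → ℝ) : Fin 6 → ℝ := ![x 1, -x 0, x 3, -x 2, x 5, -x 4]

theorem w6_be (x : Fin 6 → ℝ) (a : Fin 6) : w6 (vc be x) (be a) = yv x a := by
  unfold w6
  simp only [vc_apply, be_apply]
  fin_cases a <;> simp [yv]

theorem w6_be' (x : Fin 6 → ℝ) (a : Fin 6) : w6 (be a) (vc be x) = -yv x a := by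
  rw [← w6_be]
  unfold w6
  ring

theorem yv_sq (x : Fin 6 → ℝ) : ∑ a, yv x a ^ 2 = ∑ a, x a ^ 2 := by
  simp only [yv, Fin.sum_univ_six]
  simp
  ring

theorem yv_x (x : Fin 6 → ℝ) : ∑ a, yv x a * x a = 0 := by
  simp only [yv, Fin.sum_univ_six]
  simp
  ring

theorem yv_yv (x : Fin 6 → ℝ) (a : Fin 6) : yv (yv x) a = - x a := by
  fin_cases a <;> simp [yv]

/-- Kronecker delta -/
def dl (a b : Fin 6) : ℝ := if a = b then 1 else 0

theorem Jm_Rex (p q : ℝ) (x : Fin 6 → ℝ) (a b : Fin 6) :
    Jm (tn be (Rex p q)) x a b =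
      p * ((∑ i, x i ^ 2) * dl a b - x a * x b) - q * (yv x a * yv x b) := by
  have h1 : Jm (tn be (Rex p q)) x a b = Rex p q (vc be x) (be a) (vc be x) (be b) := by
    rw [lin1 be (Rex_curv p q) x]
    unfold Jm
    refine Finset.sum_congr rfl fun i _ => ?_
    rw [lin3 be (Rex_curv p q) x, Finset.mul_sum]
    refine Finset.sum_congr rfl fun j _ => ?_
    unfold tn
    ring
  rw [h1]
  have h2 : inner ℝ (vc be x) (vc be x) = ∑ i, x i ^ 2 := by
    rw [vc_inner]
    exact Finset.sum_congr rfl fun i _ => by ring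
  have h3 : inner ℝ (be a) (be b) = dl a b := by
    rw [in_be, be_apply]
    unfold dl
    simp only [eq_comm]
  have h4 : inner ℝ (vc be x) (be b) = x b := by rw [real_inner_comm, in_be, vc_apply]
  have h5 : inner ℝ (be a) (vc be x) = x a := by rw [in_be, vc_apply]
  simp only [Rex]
  rw [h2, h3, h4, h5, w6_be, w6_be, w6_be']
  have h6 : w6 (vc be x) (vc be x) = 0 := by
    unfold w6
    ring
  rw [h6]
  ring

/-- the model matrices -/
def Am (p q : ℝ) (x y : Fin 6 → ℝ) (a b : Fin 6) : ℝ :=
  p * (dl a b - x a * x b) + q * (y a * y b)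

theorem Am_mul {x y : Fin 6 → ℝ} (hx : ∑ i, x i ^ 2 = 1) (hy : ∑ i, y i ^ 2 = 1)
    (hxy : ∑ i, y i * x i = 0) (p q p' q' : ℝ) (a b : Fin 6) :
    ∑ c, Am p q x y a c * Am p' q' x y c b = Am (p * p') (p * q' + q * p' + q * q') x y a b := by
  have e1 : ∀ c, Am p q x y a c * Am p' q' x y c b =
      p * p' * (dl a c * dl c b) - p * p' * (dl a c * (x c * x b))
        + p * q' * (dl a c * (y c * y b)) - p * p' * (x a * x c * dl c b)
        + p * p' * (x a * x b) * (x c ^ 2)
        - p * q' * (x a * y b) * (y c * x c)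
        + q * p' * (y a * y c * dl c b) - q * p' * (y a * x b) * (y c * x c)
        + q * q' * (y a * y b) * (y c ^ 2) := by
    intro c
    unfold Am
    ring
  simp only [e1, Finset.sum_add_distrib, Finset.sum_sub_distrib, ← Finset.mul_sum]
  rw [hx, hy, hxy]
  have d1 : ∑ c, dl a c * dl c b = dl a b := by
    unfold dl
    simp
  have d2 : ∀ f : Fin 6 → ℝ, ∑ c, dl a c * f c = f a := by
    intro f
    unfold dl
    simp
  have d3 : ∀ f : Fin 6 → ℝ, ∑ c, f c * dl c b = f b := by
    intro f
    unfold dl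
    simp
  rw [d1, d2 (fun c => x c * x b), d2 (fun c => y c * y b), d3 (fun c => x a * x c),
    d3 (fun c => y a * y c)]
  unfold Am
  ring

theorem Am_tr {x y : Fin 6 → ℝ} (hx : ∑ i, x i ^ 2 = 1) (hy : ∑ i, y i ^ 2 = 1)
    (p q : ℝ) : ∑ a, Am p q x y a a = 5 * p + q := by
  have e1 : ∀ a, Am p q x y a a = p - p * x a ^ 2 + q * y a ^ 2 := by
    intro a
    unfold Am dl
    rw [if_pos rfl]
    ring
  simp only [e1, Finset.sum_add_distrib, Finset.sum_sub_distrib, ← Finset.mul_sum]
  rw [hx, hy]
  simp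
  ring

theorem Am_symm (p q : ℝ) (x y : Fin 6 → ℝ) (a b : Fin 6) :
    Am p q x y a b = Am p q x y b a := by
  unfold Am dl
  rw [show (if a = b then (1 : ℝ) else 0) = if b = a then 1 else 0 by simp only [eq_comm]]
  ring

/-- the integrand function is constant for the extremal tensors -/
theorem ff_Rex (k : ℝ) {x : Fin 6 → ℝ} (hx : ∑ i, x i ^ 2 = 1) :
    ff (tn be (Rex k (5 * k - 5))) x = pol k := by
  set q : ℝ := 5 * k - 5 with hq
  set T := tn be (Rex k q) with hT
  set y := yv x with hyd
  have hy : ∑ i, y i ^ 2 = 1 := by rw [hyd, yv_sq, hx]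
  have hxy : ∑ i, y i * x i = 0 := yv_x x
  have hyx : ∑ i, x i * y i = 0 := by
    rw [← hxy]
    exact Finset.sum_congr rfl fun i _ => by ring
  have hJ : ∀ a b, Jm T x a b = Am k (-q) x y a b := by
    intro a b
    rw [hT, Jm_Rex, hx]
    unfold Am
    ring
  have hJy : ∀ a b, Jm T y a b = Am k (-q) y x a b := by
    intro a b
    rw [hT, Jm_Rex, hy, hyd, yv_yv, yv_yv]
    unfold Am
    ring
  have hsq : ∀ a b, ∑ c, Am k (-q) x y a c * Am k (-q) x y c b =
      Am (k * k) (k * (-q) + (-q) * k + (-q) * (-q)) x y a b :=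
    fun a b => Am_mul hx hy hxy _ _ _ _ a b
  have hJJ : mJJ T x = 5 * k ^ 2 - 2 * k * q + q ^ 2 := by
    unfold mJJ
    have : ∀ a, ∑ b, Jm T x a b * Jm T x a b =
        Am (k * k) (k * (-q) + (-q) * k + (-q) * (-q)) x y a a := by
      intro a
      rw [← hsq a a]
      refine Finset.sum_congr rfl fun b _ => ?_
      rw [hJ a b]
      congr 1
      exact Am_symm _ _ _ _ _ _
    simp only [this]
    rw [Am_tr hx hy]
    ring
  have hJJJ : mJJJ T x = 4 * k ^ 3 + (k - q) ^ 3 := by
    unfold mJJJ
    have h1 : ∀ a, ∑ b, ∑ c, Jm T x a b * Jm T x b c * Jm T x c a =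
        Am (k * (k * k)) (k * (k * (-q) + (-q) * k + (-q) * (-q)) + (-q) * (k * k)
          + (-q) * (k * (-q) + (-q) * k + (-q) * (-q))) x y a a := by
      intro a
      rw [← Am_mul hx hy hxy k (-q) (k * k) (k * (-q) + (-q) * k + (-q) * (-q)) a a]
      refine Finset.sum_congr rfl fun b _ => ?_
      rw [← hsq b a, Finset.mul_sum]
      refine Finset.sum_congr rfl fun c _ => ?_
      rw [hJ a b, hJ b c, hJ c a]
      ring
    simp only [h1]
    rw [Am_tr hx hy]
    ring
  have hB : ∀ a b, ∑ c, ∑ d, Jm T x c d * T a c b d =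
      5 * k * dl a b - k * Am k (-q) x y a b - q * Am k (-q) y x a b := by
    intro a b
    have hsw : ∀ c d, T a c b d = T c a d b := by
      intro c d
      have hC := tn_curv be (Rex_curv k q)
      have h1 := hC.anti a c b d
      have h2 := hC.pair a c b d
      have h3 := hC.anti b d a c
      have h4 := hC.pair c a d b
      have h5 := hC.anti b d c a
      have h6 := hC.pair c a b d
      rw [hT]
      linarith
    have e1 : ∀ c d, Jm T x c d * T a c b d =
        k * (dl c d * T a c b d) - k * (T c a d b * (x c * x d)) - q * (T c a d b * (y c * y d)) := by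
      intro c d
      rw [hJ c d, ← hsw c d]
      unfold Am
      ring
    simp only [e1, Finset.sum_sub_distrib, ← Finset.mul_sum]
    have e2 : ∑ c, ∑ d, dl c d * T a c b d = 5 * dl a b := by
      have e3 : ∀ c, ∑ d, dl c d * T a c b d = T a c b c := by
        intro c
        unfold dl
        simp
      simp only [e3]
      have e4 : ∀ c, T a c b c = Rex k q (be c) (be a) (be c) (be b) := by
        intro c
        rw [hsw c c, hT]
        rfl
      simp only [e4]
      rw [Rex_ein, in_be, be_apply]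
      have : (if b = a then (1 : ℝ) else 0) = dl a b := by
        unfold dl
        simp only [eq_comm]
      rw [this, hq]
      ring
    rw [e2]
    have e5 : ∑ c, ∑ d, T c a d b * (x c * x d) = Am k (-q) x y a b := by
      rw [← hJ a b]
      rfl
    have e6 : ∑ c, ∑ d, T c a d b * (y c * y d) = Am k (-q) y x a b := by
      rw [← hJy a b]
      rfl
    rw [e5, e6]
    ring
  have hJSJ : mJSJ T x = 25 * k - 5 * k ^ 3 - 2 * k ^ 2 * q - k * q ^ 2 := by
    unfold mJSJ
    have e1 : ∀ a b, ∑ c, ∑ d, Jm T x a b * Jm T x c d * T a c b d =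
        5 * k * (Am k (-q) x y a b * dl a b) - k * (Jm T x a b * Jm T x a b)
          - q * (Am k (-q) x y a b * Am k (-q) y x a b) := by
      intro a b
      have : ∑ c, ∑ d, Jm T x a b * Jm T x c d * T a c b d =
          Jm T x a b * ∑ c, ∑ d, Jm T x c d * T a c b d := by
        simp only [Finset.mul_sum, mul_assoc]
      rw [this, hB a b, hJ a b]
      ring
    simp only [e1, Finset.sum_sub_distrib, ← Finset.mul_sum]
    have e2 : ∑ a, ∑ b, Jm T x a b * Jm T x a b = 5 * k ^ 2 - 2 * k * q + q ^ 2 := hJJ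
    have e3 : ∑ a, ∑ b, Am k (-q) x y a b * dl a b = 5 * k - q := by
      have : ∀ a, ∑ b, Am k (-q) x y a b * dl a b = Am k (-q) x y a a := by
        intro a
        unfold dl
        simp
      simp only [this]
      rw [Am_tr hx hy]
      ring
    have e4 : ∑ a, ∑ b, Am k (-q) x y a b * Am k (-q) y x a b = 4 * k ^ 2 := by
      have h1 : ∀ a, ∑ b, Am k (-q) x y a b * Am k (-q) y x a b =
          k * Am k (-q) x y a a - k * (k - q) * (y a * y a) := by
        intro a
        have h2 : ∀ b, Am k (-q) x y a b * Am k (-q) y x a b =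
            k * (Am k (-q) x y a b * dl a b)
              - k * y a * (k * (dl a b * y b) - k * (x a * (y b * x b)) + (-q) * (y a * y b ^ 2))
              + (-q) * x a * (k * (dl a b * x b) - k * (x a * x b ^ 2)
                + (-q) * (y a * (y b * x b))) := by
          intro b
          unfold Am
          ring
        have h3 : ∀ f : Fin 6 → ℝ, ∑ c, dl a c * f c = f a := by
          intro f
          unfold dl
          simp
        have h4 : ∑ b, Am k (-q) x y a b * dl a b = Am k (-q) x y a a := by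
          unfold dl
          simp
        simp only [h2, Finset.sum_add_distrib, Finset.sum_sub_distrib, ← Finset.mul_sum]
        rw [h4, h3, h3, hx, hy, hxy]
        ring
      simp only [h1, Finset.sum_sub_distrib, ← Finset.mul_sum]
      rw [Am_tr hx hy]
      have : ∑ a, y a * y a = 1 := by
        rw [← hy]
        exact Finset.sum_congr rfl fun i _ => by ring
      rw [this]
      ring
    rw [e2, e3, e4]
    ring
  unfold ff
  rw [hJJ, hJJJ, hJSJ, hq]
  unfold pol
  ring

theorem Rex_Einstein (k c : ℝ) : Einstein be (Rex (k * c) ((5 * k - 5) * c)) c := by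
  intro v w
  rw [Rex_ein]
  ring

theorem gb_Rex (k : ℝ) : gb (tn be (Rex k (5 * k - 5))) = 128 / 3 * pol k := by
  obtain ⟨ι, _, ⟨D⟩⟩ := exists_design
  set T := tn be (Rex k (5 * k - 5)) with hT
  have hC : IsCurv T := tn_curv be (Rex_curv _ _)
  have hE : ∀ a b, Rc T a b = if a = b then 5 else 0 := by
    have h1 : Einstein be (Rex k (5 * k - 5)) 1 := by
      intro v w
      rw [Rex_ein]
      ring
    have h2 := Rc_ein be (Rex_curv k (5 * k - 5)) one_pos h1
    have h3 : scl (1 : ℝ)⁻¹ (tn be (Rex k (5 * k - 5))) = T := by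
      funext a b c d
      simp [scl, hT]
    rw [h3] at h2
    exact h2
  have h1 : 0 ≤ D.av (fun x => ff T x + -(pol k)) :=
    D.av_nonneg fun i => by
      have := ff_Rex k (D.unit i)
      rw [← hT] at this
      linarith
  have h2 : D.av (fun x => ff T x + -(pol k)) = D.av (ff T) + -(pol k) := by
    rw [Design.av_add, Design.av_one]
  have h3 : 0 ≤ D.av (fun x => ff T x * (-1) + pol k) :=
    D.av_nonneg fun i => by
      have := ff_Rex k (D.unit i)
      rw [← hT] at this
      linarith
  have h4 : D.av (fun x => ff T x * (-1) + pol k) = D.av (ff T) * (-1) + pol k := by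
    rw [Design.av_add, Design.av_one, Design.av_mul]
  rw [h2, av_ff D hC hE] at h1
  rw [h4, av_ff D hC hE] at h3
  linarith

/-- the pointwise bound is attained -/
theorem sharp (k c : ℝ) : gbc be (Rex (k * c) ((5 * k - 5) * c)) = pol k / 135 * roundGB c := by
  have h1 : tn be (Rex (k * c) ((5 * k - 5) * c)) = scl c (tn be (Rex k (5 * k - 5))) := by
    funext a b d e
    unfold tn scl Rex
    ring
  rw [gbc_eq, h1, gb_scl, gb_Rex, ← const_eq]
  ring

end Pool.Agent.W714.ES
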